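import Mathlib
import Pool.Agent.Y766.R14.Stm

/-!
# Project R14: counting the members of a family without zeros in the unit disc

Written by helper70; `cs_avg` follows the lemma `cs_circ` of Pool.Agent.Y766.R11.ZA.
-/

set_option autoImplicit false

namespace Pool.Agent.Y70.R14

open Pool.Agent.Y766.R14

open Finset

/-- The norm of a circle average. -/
theorem norm_avg_le (F : ℂ → ℂ) (G : ℂ → ℝ) (c : ℂ) (ρ : ℝ) (hρ : 0 < ρ) (hG : Continuous G)
    (hFG : ∀ z, ‖z - c‖ = ρ → ‖F z‖ ≤ G z) :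
    ‖Real.circleAverage F c ρ‖ ≤ Real.circleAverage G c ρ := by
  rw [Real.circleAverage_def, Real.circleAverage_def, norm_smul, smul_eq_mul]
  have h1 : ‖((2 * Real.pi)⁻¹ : ℝ)‖ = (2 * Real.pi)⁻¹ := by
    rw [Real.norm_eq_abs, abs_of_pos (by positivity)]
  rw [h1]
  refine mul_le_mul_of_nonneg_left ?_ (by positivity)
  refine intervalIntegral.norm_integral_le_of_norm_le (by positivity) ?_ ?_
  · refine Filter.Eventually.of_forall fun θ _ => hFG _ ?_
    rw [circleMap_sub_center, norm_circleMap_zero, abs_of_pos hρ]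
  · exact (hG.comp (continuous_circleMap c ρ)).intervalIntegrable _ _

/-- Cauchy's formula. -/
theorem cauchy_avg (h : ℂ → ℂ) (hh : Differentiable ℂ h) (c w : ℂ) (ρ σ : ℝ) (hρ : 0 < ρ)
    (hσ : 0 < σ) (hw : ‖w - c‖ ≤ ρ - σ) :
    ‖h w‖ ≤ ρ / σ * Real.circleAverage (fun z => ‖h z‖) c ρ := by
  have hwb : w ∈ Metric.ball c |ρ| := by
    rw [Metric.mem_ball, dist_eq_norm, abs_of_pos hρ]
    linarith
  have h1 := DiffContOnCl.circleAverage_smul_div (hh.diffContOnCl (s := Metric.ball c |ρ|)) hwb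
  have h2 : ‖h w‖ ≤ Real.circleAverage (fun z => ρ / σ * ‖h z‖) c ρ := by
    rw [← h1]
    refine norm_avg_le _ _ c ρ hρ (continuous_const.mul hh.continuous.norm) fun z hz => ?_
    rw [norm_smul, norm_div, hz]
    refine mul_le_mul_of_nonneg_right ?_ (norm_nonneg _)
    have h3 : σ ≤ ‖z - w‖ := by
      have h4 := norm_sub_norm_le (z - c) (w - c)
      rw [sub_sub_sub_cancel_right, hz] at h4
      linarith
    exact div_le_div_of_nonneg_left hρ.le hσ h3
  refine h2.trans (le_of_eq ?_)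
  exact Real.circleAverage_fun_smul (a := ρ / σ) (f := fun z => ‖h z‖)

theorem cs_avg {ι : Type} (B : Finset ι) (g : ι → ℂ → ℝ) (hg : ∀ i ∈ B, Continuous (g i)) (c : ℂ)
    (R M N : ℝ) (hR : 0 < R) (hN : (B.card : ℝ) ≤ N)
    (hM : ∀ z, ‖z - c‖ = R → ∑ i ∈ B, g i z ^ 2 ≤ M) :
    ∑ i ∈ B, Real.circleAverage (g i) c R ≤ Real.sqrt (N * M) := by
  have hci : ∀ i ∈ B, CircleIntegrable (g i) c R := fun i hi =>
    ContinuousOn.circleIntegrable hR.le (hg i hi).continuousOn
  rw [← Real.circleAverage_fun_sum hci]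
  apply Real.circleAverage_mono_on_of_le_circle
  · apply ContinuousOn.circleIntegrable hR.le
    exact (continuous_finsetSum B hg).continuousOn
  · intro z hz
    rw [Metric.mem_sphere, dist_eq_norm, abs_of_pos hR] at hz
    apply Real.le_sqrt_of_sq_le
    calc (∑ i ∈ B, g i z) ^ 2 ≤ (B.card : ℝ) * ∑ i ∈ B, g i z ^ 2 := sq_sum_le_card_mul_sum_sq
      _ ≤ N * M := by
          apply mul_le_mul hN (hM z hz) (sum_nonneg fun i _ => sq_nonneg _)
          exact (Nat.cast_nonneg _).trans hN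

/-- Markov's inequality. -/
theorem markov {ι : Type} [Fintype ι] (a : ι → ℝ) (ha : ∀ i, 0 ≤ a i) (Y T : ℝ)
    (hsum : ∑ i, a i ≤ T) (G : ι → Prop) [DecidablePred G] (hG : ∀ i, G i → Y ≤ a i) :
    ((univ.filter G).card : ℝ) * Y ≤ T := by
  calc ((univ.filter G).card : ℝ) * Y = ∑ i ∈ univ.filter G, Y := by
        rw [sum_const, nsmul_eq_mul]
    _ ≤ ∑ i ∈ univ.filter G, a i := sum_le_sum fun i hi => hG i (mem_filter.1 hi).2
    _ ≤ ∑ i, a i := sum_le_sum_of_subset_of_nonneg (filter_subset _ _) fun i _ _ => ha i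
    _ ≤ T := hsum

theorem abs_count : S_ABS := by
  classical
  intro ι _ f M P V ε R τ η hP hV hε hR hτ hτ1 hη hη1 hcard hf hg h0 h1 h2 h3 h4 h5
  have hsV : 0 < Real.sqrt V := Real.sqrt_pos.2 hV
  have heR : 0 < Real.exp R := Real.exp_pos R
  obtain ⟨A1, hA1⟩ : ∃ A1 : ι → ℝ, ∀ i, A1 i =
      Real.circleAverage (fun z => ‖f i z * M i‖) (1 / 2) (1 / 2) := ⟨_, fun _ => rfl⟩
  obtain ⟨A2, hA2⟩ : ∃ A2 : ι → ℝ, ∀ i, A2 i =
      Real.circleAverage (fun z => ‖f i z * M i‖) 0 1 := ⟨_, fun _ => rfl⟩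
  have hA1n : ∀ i, 0 ≤ A1 i := fun i => by
    rw [hA1]
    exact Real.circleAverage_nonneg_of_nonneg fun z _ => norm_nonneg _
  have hA2n : ∀ i, 0 ≤ A2 i := fun i => by
    rw [hA2]
    exact Real.circleAverage_nonneg_of_nonneg fun z _ => norm_nonneg _
  have hct : ∀ i, Continuous (fun z => ‖f i z * M i‖) := fun i =>
    ((hf i).continuous.mul continuous_const).norm
  have hcard' : ((univ : Finset ι).card : ℝ) ≤ P := by
    rw [Finset.card_univ]
    exact hcard
  -- the first circle
  have hs1 : ∑ i, A1 i ≤ Real.sqrt V * P := by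
    have h6 := cs_avg (univ : Finset ι) (fun i z => ‖f i z * M i‖) (fun i _ => hct i) (1 / 2)
      (1 / 2) (V * P) P (by norm_num) hcard' (by
        intro z hz
        refine h1 z ?_ ?_
        · have h7 := Complex.abs_re_le_norm (z - 1 / 2)
          rw [hz] at h7
          have h8 := (abs_le.1 h7).1
          have h9 : (z - 1 / 2).re = z.re - 1 / 2 := by
            rw [Complex.sub_re]
            norm_num
          rw [h9] at h8
          linarith
        · calc ‖z‖ = ‖(z - 1 / 2) + 1 / 2‖ := by ring_nf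
            _ ≤ ‖z - 1 / 2‖ + ‖(1 / 2 : ℂ)‖ := norm_add_le _ _
            _ = 1 := by rw [hz]; norm_num)
    have h7 : P * (V * P) = V * P ^ 2 := by ring
    rw [h7, Real.sqrt_mul hV.le, Real.sqrt_sq hP.le] at h6
    calc ∑ i, A1 i = ∑ i, Real.circleAverage (fun z => ‖f i z * M i‖) (1 / 2) (1 / 2) :=
          sum_congr rfl fun i _ => hA1 i
      _ ≤ _ := h6
  -- the second circle
  have hs2 : ∑ i, A2 i ≤ 2 * Real.exp R * Real.sqrt V * P := by
    have h6 := cs_avg (univ : Finset ι) (fun i z => ‖f i z * M i‖) (fun i _ => hct i) 0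
      1 ((2 * Real.exp R) ^ 2 * (V * P)) P (by norm_num) hcard' (by
        intro z hz
        rw [sub_zero] at hz
        have h1e : (1 : ℝ) ≤ (2 * Real.exp R) ^ 2 := by
          have : (1 : ℝ) ≤ Real.exp R := Real.one_le_exp (by linarith)
          nlinarith
        rcases le_total 0 z.re with hz0 | hz0
        · refine (h1 z hz0 hz.le).trans ?_
          exact le_mul_of_one_le_left (by positivity) h1e
        · have h8 := h1 (-(starRingEnd ℂ) z) (by
            rw [Complex.neg_re, Complex.conj_re]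
            linarith) (by rw [norm_neg, RCLike.norm_conj]; exact hz.le)
          calc ∑ i, ‖f i z * M i‖ ^ 2
              ≤ ∑ i, (2 * Real.exp R) ^ 2 * ‖f i (-(starRingEnd ℂ) z) * M i‖ ^ 2 := by
                refine sum_le_sum fun i _ => ?_
                rw [← mul_pow, norm_mul, norm_mul, ← mul_assoc]
                refine pow_le_pow_left₀ (by positivity) ?_ 2
                exact mul_le_mul_of_nonneg_right (h2 i z hz0 hz.le) (norm_nonneg _)
            _ = (2 * Real.exp R) ^ 2 * ∑ i, ‖f i (-(starRingEnd ℂ) z) * M i‖ ^ 2 := by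
                rw [mul_sum]
            _ ≤ _ := mul_le_mul_of_nonneg_left h8 (by positivity))
    have h7 : P * ((2 * Real.exp R) ^ 2 * (V * P)) = (2 * Real.exp R * P) ^ 2 * V := by ring
    rw [h7, Real.sqrt_mul (by positivity), Real.sqrt_sq (by positivity)] at h6
    calc ∑ i, A2 i = ∑ i, Real.circleAverage (fun z => ‖f i z * M i‖) 0 1 :=
          sum_congr rfl fun i _ => hA2 i
      _ ≤ _ := h6
      _ = _ := by ring
  -- the exceptional sets
  have hE0 : ((univ.filter fun i => 1 / 2 < ‖f i (1 / 2) * M i - 1‖).card : ℝ) ≤ ε / 3 * P := by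
    have h6 := markov (fun i => ‖f i (1 / 2) * M i - 1‖ ^ 2) (fun i => sq_nonneg _) (1 / 4)
      (ε / 12 * P) h0 (fun i => 1 / 2 < ‖f i (1 / 2) * M i - 1‖) (fun i hi => by nlinarith)
    linarith
  have hE1 : ((univ.filter fun i => 3 * Real.sqrt V / ε < A1 i).card : ℝ) ≤ ε / 3 * P := by
    have h6 := markov A1 hA1n (3 * Real.sqrt V / ε) _ hs1 (fun i => 3 * Real.sqrt V / ε < A1 i)
      (fun i hi => hi.le)
    have h7 : (3 * Real.sqrt V / ε) * (ε / 3 * P) = Real.sqrt V * P := by
      field_simp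
    rw [← h7, mul_comm] at h6
    exact le_of_mul_le_mul_left h6 (by positivity)
  have hE2 : ((univ.filter fun i => 6 * Real.exp R * Real.sqrt V / ε < A2 i).card : ℝ) ≤
      ε / 3 * P := by
    have h6 := markov A2 hA2n (6 * Real.exp R * Real.sqrt V / ε) _ hs2
      (fun i => 6 * Real.exp R * Real.sqrt V / ε < A2 i) (fun i hi => hi.le)
    have h7 : (6 * Real.exp R * Real.sqrt V / ε) * (ε / 3 * P) =
        2 * Real.exp R * Real.sqrt V * P := by
      field_simp
      ring
    rw [← h7, mul_comm] at h6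
    exact le_of_mul_le_mul_left h6 (by positivity)
  -- the main inclusion
  have hsub : (univ.filter fun i => ∀ w : ℂ, ‖w‖ ≤ 1 → f i w ≠ 0) ⊆
      (univ.filter fun i => 1 / 2 < ‖f i (1 / 2) * M i - 1‖) ∪
      ((univ.filter fun i => 3 * Real.sqrt V / ε < A1 i) ∪
      (univ.filter fun i => 6 * Real.exp R * Real.sqrt V / ε < A2 i)) := by
    intro i hi
    rw [mem_filter] at hi
    by_contra hno
    rw [mem_union, mem_union, mem_filter, mem_filter, mem_filter] at hno
    push Not at hno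
    obtain ⟨n0, n1, n2⟩ := hno
    have n0 := n0 (mem_univ _)
    have n1 := n1 (mem_univ _)
    have n2 := n2 (mem_univ _)
    have hhalf : 1 ≤ 2 * (‖f i (1 / 2)‖ * ‖M i‖) := by
      rw [← norm_mul]
      have h6 : (1 : ℝ) ≤ ‖f i (1 / 2) * M i‖ + ‖f i (1 / 2) * M i - 1‖ := by
        calc (1 : ℝ) = ‖f i (1 / 2) * M i - (f i (1 / 2) * M i - 1)‖ := by simp
          _ ≤ _ := norm_sub_le _ _
      linarith
    have hM : 0 < ‖M i‖ := by
      rcases (norm_nonneg (M i)).eq_or_lt with h | h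
      · rw [← h] at hhalf
        norm_num at hhalf
      · exact h
    have hd : Differentiable ℂ fun z => f i z * M i := (hf i).mul_const _
    have hfin : ∀ (w : ℂ) (K C : ℝ), ‖f i w * M i‖ ≤ K → 0 ≤ K → 2 * K ≤ C →
        ‖f i w‖ ≤ C * ‖f i (1 / 2)‖ := by
      intro w K C hK hK0 hC
      have h6 : ‖f i w‖ * ‖M i‖ ≤ (C * ‖f i (1 / 2)‖) * ‖M i‖ := by
        rw [← norm_mul]
        calc ‖f i w * M i‖ ≤ K := hK
          _ ≤ K * (2 * (‖f i (1 / 2)‖ * ‖M i‖)) := le_mul_of_one_le_right hK0 hhalf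
          _ = (2 * K) * (‖f i (1 / 2)‖ * ‖M i‖) := by ring
          _ ≤ C * (‖f i (1 / 2)‖ * ‖M i‖) := mul_le_mul_of_nonneg_right hC (by positivity)
          _ = _ := by ring
      exact le_of_mul_le_mul_right h6 hM
    have hlt := hg (f i) (hf i) hi.2 (by
      intro w hw
      refine hfin w (3 * Real.sqrt V / ε / τ) _ ?_ (by positivity) ?_
      · have h6 := cauchy_avg (fun z => f i z * M i) hd (1 / 2) w (1 / 2) (τ / 2) (by norm_num)
          (by positivity) (by linarith)
        have h7 : (1 / 2 : ℝ) / (τ / 2) * A1 i = A1 i / τ := by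
          field_simp
        rw [← hA1, h7] at h6
        exact h6.trans (div_le_div_of_nonneg_right n1 hτ.le)
      · refine le_trans (le_of_eq ?_) h4
        field_simp
        ring) (by
      intro w hw
      refine hfin w (2 * (6 * Real.exp R * Real.sqrt V / ε)) _ ?_ (by positivity) ?_
      · have h6 := cauchy_avg (fun z => f i z * M i) hd 0 w 1 (1 / 2) (by norm_num)
          (by norm_num) (by rw [sub_zero]; linarith)
        have h7 : (1 : ℝ) / (1 / 2) * A2 i = 2 * A2 i := by
          norm_num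
        rw [← hA2, h7] at h6
        exact h6.trans (mul_le_mul_of_nonneg_left n2 (by norm_num))
      · have h6 : Real.exp (3 * R) = Real.exp R * Real.exp (2 * R) := by
          rw [← Real.exp_add]
          congr 1
          ring
        rw [h6]
        refine le_trans (le_of_eq ?_) (mul_le_mul_of_nonneg_left h5 heR.le)
        ring)
    exact absurd (h3 i) (not_le.2 hlt)
  have hcardS : Nat.card {i // ∀ w : ℂ, ‖w‖ ≤ 1 → f i w ≠ 0} =
      (univ.filter fun i => ∀ w : ℂ, ‖w‖ ≤ 1 → f i w ≠ 0).card := by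
    rw [Nat.card_eq_fintype_card, Fintype.card_subtype]
  rw [hcardS]
  have h6 : ((univ.filter fun i => ∀ w : ℂ, ‖w‖ ≤ 1 → f i w ≠ 0).card : ℝ) ≤
      ((univ.filter fun i => 1 / 2 < ‖f i (1 / 2) * M i - 1‖).card : ℝ) +
      (((univ.filter fun i => 3 * Real.sqrt V / ε < A1 i).card : ℝ) +
      ((univ.filter fun i => 6 * Real.exp R * Real.sqrt V / ε < A2 i).card : ℝ)) := by
    exact_mod_cast (card_le_card hsub).trans ((card_union_le _ _).trans
      (Nat.add_le_add_left (card_union_le _ _) _))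
  linarith

end Pool.Agent.Y70.R14
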